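import Pool.Agent.Helper40.EV.Asm

/-!
Monotonicity of the expected number of vertices, for independent uniform random points on an
arbitrary probability space, in an arbitrary finite dimensional real normed space of dimension at
least one; together with the equivalent inequality for the expected missed volume.
-/

set_option autoImplicit false

open MeasureTheory ProbabilityTheory Set
open scoped ENNReal

namespace Pool.Agent.Results.MP_2bdbd0_pr.RandomPointsForm

/-- The convex hull of the first `n` points `x 0, ..., x (n-1)` of a sequence. -/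
def hull {E : Type*} [AddCommGroup E] [Module ℝ E] (x : ℕ → E) (n : ℕ) : Set E :=
  convexHull ℝ (x '' {i | i < n})

/-- The number of vertices of the convex hull of the first `n` points of a sequence. -/
noncomputable def numVertices {E : Type*} [AddCommGroup E] [Module ℝ E] (x : ℕ → E) (n : ℕ) : ℕ :=
  (extremePoints ℝ (hull x n)).ncard

open Pool.H40.EV

/-- The number of vertices of the convex hull of a finite family. -/
noncomputable def nv {E : Type*} [AddCommGroup E] [Module ℝ E] {n : ℕ} (p : Fin n → E) : ℝ :=
  ((extremePoints ℝ (convexHull ℝ (range p))).ncard : ℝ)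

theorem hull_eq {E : Type*} [AddCommGroup E] [Module ℝ E] (x : ℕ → E) (n : ℕ) :
    hull x n = convexHull ℝ (range fun i : Fin n => x i) := by
  unfold hull
  congr 1
  ext y
  constructor
  · rintro ⟨i, hi, rfl⟩
    exact ⟨⟨i, hi⟩, rfl⟩
  · rintro ⟨i, rfl⟩
    exact ⟨i, i.2, rfl⟩

theorem numVertices_eq {E : Type*} [AddCommGroup E] [Module ℝ E] (x : ℕ → E) (n : ℕ) :
    (numVertices x n : ℝ) = nv fun i : Fin n => x i := by
  unfold numVertices nv
  rw [hull_eq]

theorem nv_map {E F : Type*} [AddCommGroup E] [Module ℝ E] [AddCommGroup F] [Module ℝ F]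
    (e : E ≃ₗ[ℝ] F) {n : ℕ} (p : Fin n → E) : nv (fun i => e (p i)) = nv p := by
  unfold nv
  have h1 : range (fun i => e (p i)) = (e : E →ₗ[ℝ] F) '' range p := by
    rw [← range_comp]; rfl
  rw [h1, ← LinearMap.image_convexHull]
  have h2 := image_extremePoints (𝕜 := ℝ) e (convexHull ℝ (range p))
  have h3 : ((e : E →ₗ[ℝ] F) '' (convexHull ℝ (range p))) = e '' (convexHull ℝ (range p)) := rfl
  rw [h3, ← h2, ncard_image_of_injective _ e.injective]

theorem nv_nonneg {E : Type*} [AddCommGroup E] [Module ℝ E] {n : ℕ} (p : Fin n → E) :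
    0 ≤ nv p := Nat.cast_nonneg _

theorem nv_le {E : Type*} [AddCommGroup E] [Module ℝ E] {n : ℕ} (p : Fin n → E) :
    nv p ≤ n := by
  unfold nv
  have h1 : extremePoints ℝ (convexHull ℝ (range p)) ⊆ range p := extremePoints_convexHull_subset
  have h2 := ncard_le_ncard h1 (finite_range p)
  have h3 : (range p).ncard ≤ n := by
    rw [← image_univ]
    refine (ncard_image_le finite_univ).trans ?_
    rw [ncard_univ, Nat.card_eq_fintype_card, Fintype.card_fin]
  exact_mod_cast h2.trans h3

theorem cond_facts {E : Type*} [NormedAddCommGroup E] [NormedSpace ℝ E] [FiniteDimensional ℝ E]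
    [MeasurableSpace E] [BorelSpace E] (μ : Measure E) [μ.IsAddHaarMeasure] (K : Set E)
    (hKc : IsCompact K) (hKi : (interior K).Nonempty) :
    μ K ≠ 0 ∧ μ K ≠ ∞ ∧ IsProbabilityMeasure (cond μ K) := by
  have h1 : μ K ≠ 0 := (Measure.measure_pos_of_nonempty_interior μ hKi).ne'
  have h2 : μ K ≠ ∞ := hKc.measure_lt_top.ne
  exact ⟨h1, h2, cond_isProbabilityMeasure_of_finite h1 h2⟩

/-- almost everywhere strong measurability of the number of vertices -/
theorem nv_aesm (d : ℕ) (hd : 1 ≤ d) (K : Set (EuclideanSpace ℝ (Fin d)))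
    (hKc : IsCompact K) (hKi : (interior K).Nonempty) (n : ℕ) :
    AEStronglyMeasurable (nv : (Fin n → EuclideanSpace ℝ (Fin d)) → ℝ)
      (Measure.pi fun _ : Fin n => cond volume K) := by
  obtain ⟨hK0, hKf, hP⟩ := cond_facts volume K hKc hKi
  rcases n with _ | n
  · exact Subsingleton.measurable.aestronglyMeasurable
  · have : Nontrivial (EuclideanSpace ℝ (Fin d)) := by
      have : Nonempty (Fin d) := ⟨⟨0, hd⟩⟩
      infer_instance
    have : NullSingletonClass (volume : Measure (EuclideanSpace ℝ (Fin d))) := inferInstance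
    set μ := cond (volume : Measure (EuclideanSpace ℝ (Fin d))) K with hμ
    have hμd : μ = (volume K)⁻¹ • volume.restrict K := rfl
    have : NullSingletonClass μ := by
      rw [hμd]
      constructor
      intro x
      rw [Measure.smul_apply, Measure.restrict_apply (measurableSet_singleton x)]
      rw [measure_mono_null inter_subset_left (measure_singleton x)]
      simp
    have hae := ae_injective μ n
    have h1 : ∀ᵐ p : Fin (n + 1) → EuclideanSpace ℝ (Fin d) ∂(Measure.pi fun _ => μ),
        nv p =
        ∑ i : Fin (n + 1), (1 - {q : Fin (n + 1) → EuclideanSpace ℝ (Fin d) |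
            q i ∈ convexHull ℝ (range fun j => q (i.succAbove j))}.indicator
              (fun _ => (1 : ℝ)) p) := by
      filter_upwards [hae] with p hp
      exact ncard_extremePoints p hp
    refine AEStronglyMeasurable.congr ?_ (h1.mono fun p hp => hp.symm)
    refine Measurable.aestronglyMeasurable ?_
    refine Finset.measurable_sum _ fun i _ => ?_
    exact measurable_const.sub
      (measurable_const.indicator (measure_hull_succAbove μ n i).1)

/-- A linear equivalence transports the uniform distribution of `K` to that of the image. -/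
theorem map_cond {E F : Type*} [NormedAddCommGroup E] [NormedSpace ℝ E] [FiniteDimensional ℝ E]
    [MeasurableSpace E] [BorelSpace E] [NormedAddCommGroup F] [NormedSpace ℝ F]
    [FiniteDimensional ℝ F] [MeasurableSpace F] [BorelSpace F] (μ : Measure E)
    [μ.IsAddHaarMeasure] (ν : Measure F) [ν.IsAddHaarMeasure] (e : E ≃L[ℝ] F) (K : Set E)
    (hKc : IsCompact K) : (cond μ K).map e = cond ν (e '' K) := by
  have hpre : e ⁻¹' (e '' K) = K := preimage_image_eq K e.injective
  have hKm : MeasurableSet (e '' K) := (hKc.image e.continuous).isClosed.measurableSet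
  have hem : Measurable e := e.continuous.measurable
  have hmap : μ.map e = Measure.addHaarScalarFactor (μ.map e) ν • ν :=
    Measure.isAddLeftInvariant_eq_smul _ _
  set c := Measure.addHaarScalarFactor (μ.map e) ν with hc
  have hc0 : (c : ℝ≥0∞) ≠ 0 := by
    have := Measure.addHaarScalarFactor_pos_of_isAddHaarMeasure (μ.map e) ν
    exact_mod_cast this.ne'
  have h1 : (μ.restrict K).map e = (μ.map e).restrict (e '' K) := by
    rw [Measure.restrict_map hem hKm, hpre]
  have h2 : μ K = c * ν (e '' K) := by
    have : (μ.map e) (e '' K) = μ K := by rw [Measure.map_apply hem hKm, hpre]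
    rw [← this, hmap]
    rfl
  unfold ProbabilityTheory.cond
  rw [Measure.map_smul, h1, hmap, h2]
  have h3 : (c • ν).restrict (e '' K) = (c : ℝ≥0∞) • ν.restrict (e '' K) := by
    rw [Measure.restrict_smul]
    rfl
  rw [h3, smul_smul]
  congr 1
  rw [ENNReal.mul_inv (Or.inl hc0) (Or.inl ENNReal.coe_ne_top), mul_right_comm,
    ENNReal.inv_mul_cancel hc0 ENNReal.coe_ne_top, one_mul]

/-- **Theorem.** Let `E` be a real normed space of finite dimension at least one with a Haar
(Lebesgue) measure `μ`, `K` a compact convex set with nonempty interior, and `X 0, X 1, ...`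
independent random points on a probability space, each uniformly distributed in `K`.  Then the
number of vertices of the convex hull of the first `n` points is integrable, its expectation is
nondecreasing in `n`, and the expected missed volumes `M n = 𝔼 μ (K \ hull X n)` satisfy
`(n + 1) * M n ≤ (n + 2) * M (n + 1)`. -/
theorem result {E : Type*} [NormedAddCommGroup E] [NormedSpace ℝ E] [FiniteDimensional ℝ E]
    [Nontrivial E] [MeasurableSpace E] [BorelSpace E] (μ : Measure E) [μ.IsAddHaarMeasure]
    (K : Set E) (hK : Convex ℝ K) (hKc : IsCompact K) (hKi : (interior K).Nonempty)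
    {Ω : Type*} [MeasurableSpace Ω] (P : Measure Ω) [IsProbabilityMeasure P] (X : ℕ → Ω → E)
    (hXm : ∀ i, Measurable (X i)) (hXlaw : ∀ i, P.map (X i) = cond μ K) (hXind : iIndepFun X P) :
    (∀ n, Integrable (fun ω => (numVertices (fun i => X i ω) n : ℝ)) P) ∧
    Monotone (fun n => ∫ ω, (numVertices (fun i => X i ω) n : ℝ) ∂P) ∧
    ∀ n : ℕ, ((n : ℝ) + 1) * ∫ ω, μ.real (K \ hull (fun i => X i ω) n) ∂P ≤
      ((n : ℝ) + 2) * ∫ ω, μ.real (K \ hull (fun i => X i ω) (n + 1)) ∂P := by
  obtain ⟨hK0, hKf, hprob⟩ := cond_facts μ K hKc hKi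
  set d := Module.finrank ℝ E with hd
  have hd1 : 1 ≤ d := Module.finrank_pos
  set F := EuclideanSpace ℝ (Fin d) with hF
  have hfr : Module.finrank ℝ E = Module.finrank ℝ F := finrank_euclideanSpace_fin.symm
  let e : E ≃L[ℝ] F := ContinuousLinearEquiv.ofFinrankEq hfr
  have hem : Measurable e := e.continuous.measurable
  have hem' : Measurable e.symm := e.symm.continuous.measurable
  set K' : Set F := e '' K with hK'
  have hK'c : IsCompact K' := hKc.image e.continuous
  have hK'conv : Convex ℝ K' := hK.linear_image e.toLinearEquiv.toLinearMap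
  have hK'i : (interior K').Nonempty := by
    obtain ⟨x, hx⟩ := hKi
    exact ⟨e x, (e.toHomeomorph.isOpenMap.image_interior_subset K) ⟨x, hx, rfl⟩⟩
  obtain ⟨hK'0, hK'f, hprob'⟩ := cond_facts (volume : Measure F) K' hK'c hK'i
  have hlaw : (cond μ K).map e = cond volume K' := map_cond μ volume e K hKc
  -- the law of the first `n` transported points
  have hYm : ∀ n : ℕ, Measurable fun ω => fun i : Fin n => e (X i ω) := fun n =>
    measurable_pi_lambda _ fun i => hem.comp (hXm i)
  have hXnm : ∀ n : ℕ, Measurable fun ω => fun i : Fin n => X i ω := fun n =>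
    measurable_pi_lambda _ fun i => hXm i
  have hXlawn : ∀ n : ℕ, P.map (fun ω => fun i : Fin n => X i ω) =
      Measure.pi fun _ : Fin n => cond μ K := by
    intro n
    have hi : iIndepFun (fun i : Fin n => X i) P :=
      iIndepFun.precomp (g := fun i : Fin n => (i : ℕ)) Fin.val_injective hXind
    have hi2 := (iIndepFun_iff_map_fun_eq_pi_map (f := fun i : Fin n => X i)
      (fun i => (hXm i).aemeasurable)).1 hi
    rw [hi2]
    congr 1
    funext i
    exact hXlaw i
  have hYlaw : ∀ n : ℕ, P.map (fun ω => fun i : Fin n => e (X i ω)) =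
      Measure.pi fun _ : Fin n => cond volume K' := by
    intro n
    have h1 : MeasurePreserving (fun p : Fin n → E => fun i => e (p i))
        (Measure.pi fun _ : Fin n => cond μ K) (Measure.pi fun _ : Fin n => cond volume K') :=
      measurePreserving_pi (fun _ => cond μ K) (fun _ => cond volume K')
        fun _ => ⟨hem, hlaw⟩
    rw [← h1.map_eq, ← hXlawn n, Measure.map_map h1.measurable (hXnm n)]
    rfl
  have hnv : ∀ n : ℕ, ∀ ω, (numVertices (fun i => X i ω) n : ℝ) =
      nv fun i : Fin n => e (X i ω) := by
    intro n ω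
    rw [numVertices_eq, ← nv_map e.toLinearEquiv]
    rfl
  have haesm : ∀ n : ℕ, AEStronglyMeasurable (fun ω => (numVertices (fun i => X i ω) n : ℝ)) P := by
    intro n
    simp only [hnv]
    have h1 := nv_aesm d hd1 K' hK'c hK'i n
    rw [← hYlaw n] at h1
    exact h1.comp_aemeasurable (hYm n).aemeasurable
  have hint : ∀ n, Integrable (fun ω => (numVertices (fun i => X i ω) n : ℝ)) P := by
    intro n
    refine Integrable.of_bound (haesm n) (n : ℝ) (Filter.Eventually.of_forall fun ω => ?_)
    rw [numVertices_eq, Real.norm_of_nonneg (nv_nonneg _)]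
    exact nv_le _
  have heq : ∀ n : ℕ, ∫ ω, (numVertices (fun i => X i ω) n : ℝ) ∂P =
      ∫ p : Fin n → F, ((Set.extremePoints ℝ (convexHull ℝ (Set.range p))).ncard : ℝ)
        ∂(Measure.pi (fun _ : Fin n => cond volume K')) := by
    intro n
    simp only [hnv]
    have h1 := nv_aesm d hd1 K' hK'c hK'i n
    rw [← hYlaw n] at h1
    have h2 := integral_map (hYm n).aemeasurable h1
    rw [← h2, hYlaw n]
    rfl
  have hstep : ∀ n : ℕ, ∫ ω, (numVertices (fun i => X i ω) n : ℝ) ∂P ≤
      ∫ ω, (numVertices (fun i => X i ω) (n + 1) : ℝ) ∂P := by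
    intro n
    rw [heq n, heq (n + 1)]
    exact final d K' hK'conv hK'c hK'i n
  refine ⟨hint, monotone_nat_of_le_succ hstep, ?_⟩
  -- the expected missed volume
  have hmiss : ∀ n : ℕ, ∫ ω, μ.real (K \ hull (fun i => X i ω) n) ∂P =
      μ.real K * (1 - (hullMass (cond μ K) n).toReal) := by
    intro n
    have hmeas : Measurable fun p : Fin n → E => cond μ K {x | x ∈ convexHull ℝ (range p)} :=
      measurable_measure_prodMk_left (measurableSet_hull n)
    have hle : ∀ A : Set E, cond μ K A ≤ 1 := fun A => prob_le_one
    have h1 : ∀ ω, μ.real (K \ hull (fun i => X i ω) n) =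
        μ.real K * (1 - (cond μ K {x | x ∈ convexHull ℝ (range fun i : Fin n => X i ω)}).toReal) := by
      intro ω
      have hcl : IsClosed (convexHull ℝ (range fun i : Fin n => X i ω)) :=
        ((finite_range _).isCompact_convexHull (𝕜 := ℝ)).isClosed
      have h2 : μ.real (K \ hull (fun i => X i ω) n) = μ.real K -
          μ.real (K ∩ convexHull ℝ (range fun i : Fin n => X i ω)) := by
        rw [hull_eq, eq_sub_iff_add_eq, add_comm]
        exact measureReal_inter_add_sdiff hcl.measurableSet hKf
      have h3 : (cond μ K {x | x ∈ convexHull ℝ (range fun i : Fin n => X i ω)}).toReal =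
          (μ.real K)⁻¹ * μ.real (K ∩ convexHull ℝ (range fun i : Fin n => X i ω)) := by
        rw [ofPred_mem_eq, cond_apply hKc.isClosed.measurableSet, ENNReal.toReal_mul,
          ENNReal.toReal_inv]
        rfl
      have h4 : μ.real K ≠ 0 := (ENNReal.toReal_pos hK0 hKf).ne'
      rw [h2, h3]
      field_simp
    simp only [h1]
    rw [integral_const_mul]
    congr 1
    have h5 : ∫⁻ ω, cond μ K {x | x ∈ convexHull ℝ (range fun i : Fin n => X i ω)} ∂P =
        hullMass (cond μ K) n := by
      unfold hullMass
      rw [← hXlawn n, lintegral_map hmeas (hXnm n)]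
    have hm2 : Measurable fun ω =>
        cond μ K {x | x ∈ convexHull ℝ (range fun i : Fin n => X i ω)} := hmeas.comp (hXnm n)
    have hi2 : Integrable (fun ω =>
        (cond μ K {x | x ∈ convexHull ℝ (range fun i : Fin n => X i ω)}).toReal) P := by
      refine Integrable.of_bound hm2.ennreal_toReal.aestronglyMeasurable 1
        (Filter.Eventually.of_forall fun ω => ?_)
      rw [Real.norm_of_nonneg ENNReal.toReal_nonneg]
      exact ENNReal.toReal_le_of_le_ofReal zero_le_one (by simpa using hle _)
    rw [integral_sub (integrable_const _) hi2, integral_const, integral_toReal hm2.aemeasurable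
      (Filter.Eventually.of_forall fun ω => (hle _).trans_lt ENNReal.one_lt_top), h5]
    simp
  intro n
  have hmp : MeasurePreserving e.toLinearEquiv (cond μ K) (cond volume K') := ⟨hem, hlaw⟩
  have htr : ∀ j, hullMass (cond μ K) j = hullMass (cond volume K') j := fun j =>
    hullMass_transfer _ _ e.toLinearEquiv hem hem' hmp j
  have hefr : ∀ j : ℕ, ∫ ω, (numVertices (fun i => X i ω) (j + 1) : ℝ) ∂P =
      (j + 1) * (1 - (hullMass (cond μ K) j).toReal) := by
    intro j
    rw [heq (j + 1), efron d K' hd1 hK'conv hK'c hK'i j, htr j]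
    congr 2
    have h6 : cond volume K' = (volume K')⁻¹ • volume.restrict K' := rfl
    have hfin : IsFiniteMeasure ((volume : Measure F).restrict K') :=
      ⟨by rw [Measure.restrict_apply_univ]; exact hK'c.measure_lt_top⟩
    rw [h6, hullMass_smul _ _ (ENNReal.inv_ne_top.2 hK'0) j, ENNReal.toReal_mul,
      ENNReal.toReal_pow, ENNReal.toReal_inv, vol, div_eq_inv_mul, inv_pow]
  have hs := hstep (n + 1)
  rw [hefr n, hefr (n + 1)] at hs
  rw [hmiss n, hmiss (n + 1)]
  have hV : 0 ≤ μ.real K := measureReal_nonneg
  have h7 := mul_le_mul_of_nonneg_left hs hV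
  push_cast at h7
  linarith

end Pool.Agent.Results.MP_2bdbd0_pr.RandomPointsForm
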